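import Pool.Agent.Q66.GL1

/-!
# Continuous monotone solutions of a sliding-window Golomb-type equation (MP_39cb5d_an, Q1)

The answer is NO. For every perfect square `r = k²`, `k ≥ 2`, the equation
`φ (φ (x) + φ (x - 1) + ... + φ (x - r + 1)) = x` has uncountably many continuous strictly increasing
solutions on the real line, so the affine solution `x / √r + (√r - 1) / 2` is not the only one
(already for `r = 4`).

Construction. Let `G y = y / k² + (k² - 1) / (2 k) + ε sin (2 π y / k²)`, a contraction with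
`∑ j < k², G (y - k j) = y` and `G (y + k²) = G y + 1`. Let `W` be the homeomorphism of `ℝ` with
`G (W (k² z)) = W z` and `W (z + 1) = W z + 1`. Then `∑ j < k², W ((z - j) / k) = W (k z)`, and
`φ = W ∘ (· / k) ∘ W⁻¹` is a solution with `φ ∘ φ = G`.
-/

set_option autoImplicit false

namespace Pool.Agent.Results.MP_39cb5d_an.PerfectSquares

/-- `φ` is continuous, nondecreasing and `φ (∑ j < r, φ (x - j)) = x` for all real `x`. -/
def IsSolution (r : ℕ) (φ : ℝ → ℝ) : Prop :=
  Continuous φ ∧ Monotone φ ∧ ∀ x : ℝ, φ (∑ j ∈ Finset.range r, φ (x - j)) = x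

/-- Q1 is false, and for every perfect square `r = k² ≥ 4` there are uncountably many continuous
nondecreasing solutions. -/
theorem result :
    (¬ ∀ r : ℕ, 2 ≤ r → ∀ φ : ℝ → ℝ, IsSolution r φ →
      φ = fun x => x / Real.sqrt r + (Real.sqrt r - 1) / 2) ∧
    ∀ k : ℕ, 2 ≤ k → ¬ {φ : ℝ → ℝ | IsSolution (k ^ 2) φ}.Countable := by
  have main : ∀ k : ℕ, 2 ≤ k → ¬ {φ : ℝ → ℝ | IsSolution (k ^ 2) φ}.Countable := by
    intro k hk hc
    let S : Set ℝ := Set.Icc 0 (1 / 10)
    let f : ℝ → ℝ → ℝ := fun ε =>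
      if h : 0 ≤ ε ∧ ε ≤ 1 / 10 then Q66.GL.phi hk h.1 h.2 else id
    have hf : Set.MapsTo f S {φ : ℝ → ℝ | IsSolution (k ^ 2) φ} := by
      intro ε hε
      have h : 0 ≤ ε ∧ ε ≤ 1 / 10 := hε
      simp only [f, h, and_self, dite_true]
      exact ⟨Q66.GL.phi_cont hk h.1 h.2, (Q66.GL.phi_strict hk h.1 h.2).monotone,
        fun x => by exact_mod_cast Q66.GL.phi_eq hk h.1 h.2 x⟩
    have hi : Set.InjOn f S := by
      intro ε hε ε' hε' he
      have h : 0 ≤ ε ∧ ε ≤ 1 / 10 := hε
      have h' : 0 ≤ ε' ∧ ε' ≤ 1 / 10 := hε'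
      simp only [f, h, h', and_self, dite_true] at he
      exact Q66.GL.phi_inj hk h.1 h.2 h'.1 h'.2 he
    have hS : S.Countable := Set.MapsTo.countable_of_injOn hf hi hc
    have : ¬ S.Countable := by
      rw [← Cardinal.le_aleph0_iff_set_countable, not_le]
      simp only [S]
      rw [Cardinal.mk_Icc_real (by norm_num)]
      exact Cardinal.aleph0_lt_continuum
    exact this hS
  refine ⟨fun h => main 2 le_rfl ?_, main⟩
  have : {φ : ℝ → ℝ | IsSolution (2 ^ 2) φ} ⊆
      {fun x => x / Real.sqrt ((2 ^ 2 : ℕ) : ℝ) + (Real.sqrt ((2 ^ 2 : ℕ) : ℝ) - 1) / 2} := by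
    intro φ hφ
    exact h (2 ^ 2) (by norm_num) φ hφ
  exact (Set.countable_singleton _).mono this

end Pool.Agent.Results.MP_39cb5d_an.PerfectSquares
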